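import Pool.Agent.T2H57.PP.Herm

/-!
# Polynomial parametrization of the integer solutions of `x² + y² + zt + 1 = 0`
-/

set_option autoImplicit false

open Matrix MvPolynomial

namespace Pool.Agent.Results.MP_19a1ab_nt.TwoFamilies

open Pool.Agent.T2H57.PP

/-- `S ⊆ ℤⁿ` is a polynomial family: the set of the integer values of an `n`-tuple of polynomials
with integer coefficients in `k` variables. -/
def IsPolyFamily {n : ℕ} (S : Set (Fin n → ℤ)) : Prop :=
  ∃ (k : ℕ) (P : Fin n → MvPolynomial (Fin k) ℤ),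
    ∀ x : Fin n → ℤ, x ∈ S ↔ ∃ u : Fin k → ℤ, ∀ i, x i = MvPolynomial.eval u (P i)

/-- the integer solutions of `x² + y² + zt + 1 = 0` -/
def Sol : Set (Fin 4 → ℤ) := {x | x 0 ^ 2 + x 1 ^ 2 + x 2 * x 3 + 1 = 0}

theorem ofFinite {n : ℕ} {τ : Type} [Finite τ] (P : Fin n → MvPolynomial τ ℤ)
    (S : Set (Fin n → ℤ)) (h : ∀ x : Fin n → ℤ, x ∈ S ↔ ∃ u : τ → ℤ, ∀ i, x i = eval u (P i)) :
    IsPolyFamily S := by
  obtain ⟨k, ⟨e⟩⟩ := Finite.exists_equiv_fin τ
  refine ⟨k, fun i => rename e (P i), fun x => ?_⟩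
  rw [h]
  constructor
  · rintro ⟨u, hu⟩
    refine ⟨u ∘ e.symm, fun i => ?_⟩
    rw [eval_rename, hu i]
    congr 1
    congr 1
    funext s
    simp
  · rintro ⟨u, hu⟩
    exact ⟨u ∘ e, fun i => by rw [hu i, eval_rename]⟩

/-- real and imaginary parts of a polynomial -/
theorem reim {σ : Type} (p : MvPolynomial σ G) : ∃ R J : MvPolynomial (σ ⊕ σ) ℤ,
    ∀ u : σ ⊕ σ → ℤ, (aeval (fun s => (⟨u (Sum.inl s), u (Sum.inr s)⟩ : G)) p : G) =
      ⟨eval u R, eval u J⟩ := by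
  induction p using MvPolynomial.induction_on with
  | C a =>
    refine ⟨C a.re, C a.im, fun u => ?_⟩
    simp
  | add p q hp hq =>
    obtain ⟨R, J, h⟩ := hp
    obtain ⟨R', J', h'⟩ := hq
    refine ⟨R + R', J + J', fun u => ?_⟩
    rw [map_add, h, h', map_add, map_add]
    rfl
  | mul_X p s hp =>
    obtain ⟨R, J, h⟩ := hp
    refine ⟨R * X (Sum.inl s) - J * X (Sum.inr s), R * X (Sum.inr s) + J * X (Sum.inl s), fun u => ?_⟩
    rw [map_mul, h, aeval_X, map_sub, map_add, map_mul, map_mul, map_mul, map_mul, eval_X, eval_X]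
    ext
    · simp only [Zsqrtd.re_mul]; ring
    · simp only [Zsqrtd.im_mul]

/-- the parametrization by `SL(2, ℤ[i])` -/
theorem main : ∃ (τ : Type) (_ : Finite τ) (A B Z T : MvPolynomial τ ℤ),
    ∀ a b z t : ℤ, (0 < z ∧ a ^ 2 + b ^ 2 + 1 = z * t) ↔
      ∃ u : τ → ℤ, a = eval u A ∧ b = eval u B ∧ z = eval u Z ∧ t = eval u T := by
  obtain ⟨σ, hσ, P, hP⟩ := universal
  choose R J hRJ using fun i j => reim (P i j)
  -- the matrix with given parameters
  have key : ∀ u : σ ⊕ σ → ℤ, ∃ g : SL2 G, ∀ i j, g i j = ⟨eval u (R i j), eval u (J i j)⟩ :=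
    fun u => ⟨ev (fun s => (⟨u (Sum.inl s), u (Sum.inr s)⟩ : G)) P, fun i j => by
      rw [ev_apply, hRJ]⟩
  refine ⟨σ ⊕ σ, inferInstance,
    R 0 0 * R 1 0 + J 0 0 * J 1 0 + (R 0 1 * R 1 1 + J 0 1 * J 1 1),
    J 0 0 * R 1 0 - R 0 0 * J 1 0 + (J 0 1 * R 1 1 - R 0 1 * J 1 1),
    (R 0 0) ^ 2 + (J 0 0) ^ 2 + ((R 0 1) ^ 2 + (J 0 1) ^ 2),
    (R 1 0) ^ 2 + (J 1 0) ^ 2 + ((R 1 1) ^ 2 + (J 1 1) ^ 2), fun a b z t => ?_⟩
  constructor
  · rintro ⟨hz, h⟩
    obtain ⟨g, h1, h2, h3⟩ := herm' (t := t) (w := ⟨a, b⟩) hz (by rw [norm_def']; linear_combination -h)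
    obtain ⟨u, hu⟩ := hP g
    refine ⟨Sum.elim (fun s => (u s).re) (fun s => (u s).im), ?_⟩
    have hg : ∀ i j, g i j = ⟨eval (Sum.elim (fun s => (u s).re) (fun s => (u s).im)) (R i j),
        eval (Sum.elim (fun s => (u s).re) (fun s => (u s).im)) (J i j)⟩ := by
      intro i j
      rw [← hu i j, ← hRJ]
      rfl
    generalize Sum.elim (fun s => (u s).re) (fun s => (u s).im) = v at hg
    rw [norm_def', norm_def'] at h1 h2
    have h4 := congrArg Zsqrtd.re h3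
    have h5 := congrArg Zsqrtd.im h3
    simp only [Zsqrtd.re_add, Zsqrtd.im_add, Zsqrtd.re_mul, Zsqrtd.im_mul, Zsqrtd.re_star,
      Zsqrtd.im_star] at h4 h5
    simp only [hg] at h1 h2 h4 h5
    simp only [map_add, map_sub, map_mul, map_pow]
    refine ⟨by rw [h4]; ring, by rw [h5]; ring, by rw [h1], by rw [h2]⟩
  · rintro ⟨u, ha, hb, hz, ht⟩
    obtain ⟨g, hg⟩ := key u
    have h1 := lagrange g
    simp only [norm_def', Zsqrtd.re_add, Zsqrtd.im_add, Zsqrtd.re_mul, Zsqrtd.im_mul,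
      Zsqrtd.re_star, Zsqrtd.im_star] at h1
    simp only [hg] at h1
    simp only [map_add, map_sub, map_mul, map_pow] at ha hb hz ht
    have h2 : a ^ 2 + b ^ 2 + 1 = z * t := by
      rw [ha, hb, hz, ht]
      linear_combination -h1
    refine ⟨?_, h2⟩
    have h3 : 0 ≤ z := by rw [hz]; positivity
    rcases h3.lt_or_eq with h4 | h4
    · exact h4
    · rw [← h4] at h2
      nlinarith [sq_nonneg a, sq_nonneg b]

/-- The set `S` of the integer solutions of `x² + y² + zt + 1 = 0` is a finite union of polynomial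
families; indeed its two halves `z > 0` and `z < 0`, whose union is `S`, are polynomial families. -/
theorem result :
    (∃ (r : ℕ) (F : Fin r → Set (Fin 4 → ℤ)), (∀ j, IsPolyFamily (F j)) ∧ Sol = ⋃ j, F j) ∧
    IsPolyFamily {x ∈ Sol | 0 < x 2} ∧ IsPolyFamily {x ∈ Sol | x 2 < 0} ∧
    Sol = {x ∈ Sol | 0 < x 2} ∪ {x ∈ Sol | x 2 < 0} := by
  obtain ⟨τ, hτ, A, B, Z, T, hmain⟩ := main
  have h1 : IsPolyFamily {x ∈ Sol | 0 < x 2} := by
    refine ofFinite ![A, B, Z, -T] _ fun x => ?_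
    have h2 := hmain (x 0) (x 1) (x 2) (-(x 3))
    constructor
    · rintro ⟨h3, h4⟩
      have h3' : x 0 ^ 2 + x 1 ^ 2 + x 2 * x 3 + 1 = 0 := h3
      obtain ⟨u, e0, e1, e2, e3⟩ := h2.1 ⟨h4, by linear_combination h3'⟩
      refine ⟨u, fun i => ?_⟩
      fin_cases i
      · exact e0
      · exact e1
      · exact e2
      · change x 3 = eval u (-T)
        rw [map_neg, ← e3, neg_neg]
    · rintro ⟨u, hu⟩
      have e0 : x 0 = eval u A := hu 0
      have e1 : x 1 = eval u B := hu 1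
      have e2 : x 2 = eval u Z := hu 2
      have e3 : x 3 = eval u (-T) := hu 3
      rw [map_neg] at e3
      obtain ⟨h3, h4⟩ := h2.2 ⟨u, e0, e1, e2, by rw [e3, neg_neg]⟩
      refine ⟨?_, h3⟩
      change x 0 ^ 2 + x 1 ^ 2 + x 2 * x 3 + 1 = 0
      linear_combination h4
  have h1' : IsPolyFamily {x ∈ Sol | x 2 < 0} := by
    refine ofFinite ![A, B, -Z, T] _ fun x => ?_
    have h2 := hmain (x 0) (x 1) (-(x 2)) (x 3)
    constructor
    · rintro ⟨h3, h4⟩
      have h3' : x 0 ^ 2 + x 1 ^ 2 + x 2 * x 3 + 1 = 0 := h3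
      obtain ⟨u, e0, e1, e2, e3⟩ := h2.1 ⟨by linarith, by linear_combination h3'⟩
      refine ⟨u, fun i => ?_⟩
      fin_cases i
      · exact e0
      · exact e1
      · change x 2 = eval u (-Z)
        rw [map_neg, ← e2, neg_neg]
      · exact e3
    · rintro ⟨u, hu⟩
      have e0 : x 0 = eval u A := hu 0
      have e1 : x 1 = eval u B := hu 1
      have e2 : x 2 = eval u (-Z) := hu 2
      have e3 : x 3 = eval u T := hu 3
      rw [map_neg] at e2
      obtain ⟨h3, h4⟩ := h2.2 ⟨u, e0, e1, by rw [e2, neg_neg], e3⟩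
      refine ⟨?_, by linarith⟩
      change x 0 ^ 2 + x 1 ^ 2 + x 2 * x 3 + 1 = 0
      linear_combination h4
  have h5 : Sol = {x ∈ Sol | 0 < x 2} ∪ {x ∈ Sol | x 2 < 0} := by
    ext x
    constructor
    · intro hx
      rcases lt_trichotomy (x 2) 0 with h6 | h6 | h6
      · exact Or.inr ⟨hx, h6⟩
      · have h7 : x 0 ^ 2 + x 1 ^ 2 + x 2 * x 3 + 1 = 0 := hx
        rw [h6] at h7
        nlinarith [sq_nonneg (x 0), sq_nonneg (x 1)]
      · exact Or.inl ⟨hx, h6⟩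
    · rintro (h | h)
      · exact h.1
      · exact h.1
  refine ⟨⟨2, ![{x ∈ Sol | 0 < x 2}, {x ∈ Sol | x 2 < 0}], ?_, ?_⟩, h1, h1', h5⟩
  · intro j
    fin_cases j
    · exact h1
    · exact h1'
  · refine h5.trans ?_
    ext x
    simp only [Set.mem_iUnion]
    constructor
    · rintro (h | h)
      · exact ⟨0, h⟩
      · exact ⟨1, h⟩
    · rintro ⟨j, hj⟩
      fin_cases j
      · exact Or.inl hj
      · exact Or.inr hj

end Pool.Agent.Results.MP_19a1ab_nt.TwoFamilies
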